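import Pool.Agent.Q197.SP.R504

/-!
# The answer for almost primes is no

`ρ(y)` is the largest number of primes in infinitely many intervals `(x, x + y]`, and the question is whether
`π(y) - ρ(y)` tends to `+∞`. Let `ρ*(y)` be the largest number of elements of an admissible subset of `[0, y)`. If `ρ`
is formed with the numbers `n` all of whose prime factors are larger than `n ^ δ` (so that `n` has fewer than `1 / δ`
prime factors), then it has the value `ρ*(y)` for all small `δ`, and `π - ρ` is at most `- α y log log log y / log² y`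
for all large `y`, for every `α < 1 / 2`.
-/

set_option autoImplicit false

namespace Pool.Agent.Results.MP_5046ca_nt.AlmostPrimes

open Finset Filter MeasureTheory ProbabilityTheory Pool.Agent.Q197.SP.R504

theorem result :
    (∀ y : ℕ, 3 ≤ y → ∃ δ₀ : ℝ, 0 < δ₀ ∧ ∀ δ : ℝ, 0 < δ → δ ≤ δ₀ → rho (Rough δ) y = rhoStar y) ∧
    (∀ α : ℝ, α < 1 / 2 → ∃ y₀ : ℕ, ∀ y : ℕ, y₀ ≤ y → ∃ δ₀ : ℝ, 0 < δ₀ ∧ ∀ δ : ℝ, 0 < δ → δ ≤ δ₀ →
      (Nat.primeCounting y : ℝ) - rho (Rough δ) y ≤ -(α * gain y)) := by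
  exact ⟨all_parts.1, all_parts.2.1⟩

end Pool.Agent.Results.MP_5046ca_nt.AlmostPrimes
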