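import Pool.Agent.Q106.IV.WinLow

/-!
# MP_5046ca_nt: the function `ρ` of arbitrary random sets near the random models of the primes

`ρ(y)` is the largest number of primes in infinitely many intervals `(x, x + y]`, here for a random set `A` in place of the
primes; `ρ*(y)` is the largest number of elements of an admissible subset of `[0, y)`. `Mod z p`: probabilities
`p n = n ^ (-o(1))` on the `n` without prime factors `≤ z n = n ^ o(1)`, and at most `1 / 2` on all large `n`. The model
contains each `n` independently with probability `p n`; `Un p` is the set of the `n` with `0 < p n < 1`, and for any random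
set `A` of natural numbers `relEnt p μ A (ind (Un p) x)` is the relative entropy of the law of `A ∩ Un p ∩ [0, x)` with
respect to the model.
-/

set_option autoImplicit false

namespace Pool.Agent.Results.MP_5046ca_nt.InformationThreshold

open MeasureTheory Filter Pool.Agent.Q106.IV Pool.Agent.Q197.SP.R504
open Pool.Agent.Q120.ET (IsRandomSet)
open Pool.Agent.Q120.ME (relEnt ind)

/-- **The answer is no for all random sets of information `x^θ`, `θ < 1`, and it can be yes for `θ = 1`.** -/
theorem result :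
    (∀ C : ℝ, Mod (fun n => C * Real.log (Real.log n)) (sieved C)) ∧
    ∀ z p : ℕ → ℝ, Mod z p →
      (∀ θ : ℝ, 0 ≤ θ → θ < 1 →
        ∀ (Ω : Type) [MeasurableSpace Ω] (μ : Measure Ω) [IsProbabilityMeasure μ] (A : Ω → Set ℕ), IsRandomSet A →
          (∀ᶠ x : ℕ in atTop, relEnt p μ A (ind (Un p) x) ≤ (x : ℝ) ^ θ) →
          ∀ᵐ ω ∂μ,
            (∀ y : ℕ, 3 ≤ y → rhoStar y ≤ rho (A ω) y ∧ ∀ ε : ℝ, 0 < ε → ∀ᶠ X : ℕ in atTop, (X : ℝ) ^ (1 - ε) ≤
              ({x : ℕ | x ≤ X ∧ rhoStar y ≤ (A ω ∩ Set.Ioc x (x + y)).ncard} : Set ℕ).ncard) ∧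
            (∀ α : ℝ, α < 1 / 2 → ∀ᶠ y : ℕ in atTop, (Nat.primeCounting y : ℝ) - rho (A ω) y ≤ -(α * gain y)) ∧
            Tendsto (fun y : ℕ => (Nat.primeCounting y : ℤ) - rho (A ω) y) atTop atBot) ∧
      ∃ (Ω : Type) (_ : MeasurableSpace Ω) (μ : Measure Ω) (_ : IsProbabilityMeasure μ) (A : Ω → Set ℕ), IsRandomSet A ∧
        (∀ᶠ x : ℕ in atTop, relEnt p μ A (ind (Un p) x) ≤ (x : ℝ)) ∧
        ∀ᵐ ω ∂μ, Tendsto (fun y : ℕ => (Nat.primeCounting y : ℤ) - rho (A ω) y) atTop atTop := by
  refine ⟨fun C => mod_of_dens (dens_sieved C), fun z p hp => ⟨fun θ h0 h1 Ω _ μ _ A hA hent => ?_, ?_⟩⟩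
  · filter_upwards [info_windows hp h0 h1 Ω μ A hA hent] with ω h
    refine ⟨h, fun α hα => ?_, ?_⟩
    · obtain ⟨y0, hy0⟩ := Pool.Agent.Y879.PR.rh_low hα
      filter_upwards [eventually_ge_atTop (y0 + 3)] with y hy
      have h1 := (h y (by omega)).1
      have h2 := hy0 y (by omega)
      have h3 : (Pool.Agent.Y879.PR.Rh y : ℝ) ≤ rho (A ω) y := by exact_mod_cast h1
      unfold gain
      linarith
    · refine Pool.Agent.Q197.FM.gap_tendsto ?_
      filter_upwards [eventually_ge_atTop 3] with y hy
      exact (h y hy).1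
  · obtain ⟨Ω, i1, μ, i2, A, hA, hent, hfree⟩ := delete_set hp.range (Set.univ)
    refine ⟨Ω, i1, μ, i2, A, hA, ?_, ?_⟩
    · filter_upwards [cost_all hp] with x hx
      refine (hent x).trans (le_of_eq_of_le ?_ hx)
      refine Finset.sum_congr ?_ (fun _ _ => rfl)
      ext N
      simp only [Finset.mem_filter]
    · filter_upwards [hfree] with ω hω
      have h1 : ∀ y : ℕ, rho (A ω) y = 0 := by
        intro y
        have h2 : ∀ x : ℕ, (A ω ∩ Set.Ioc x (x + y)).ncard = 0 := by
          intro x
          have h3 : A ω ∩ Set.Ioc x (x + y) = ∅ := by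
            ext n
            simp only [Set.mem_inter_iff, Set.mem_empty_iff_false, iff_false, not_and]
            exact fun hn => absurd (Set.mem_univ n) (hω n hn)
          rw [h3, Set.ncard_empty]
        have h4 : rho (A ω) y ≤ 0 := Pool.Agent.Q197.FM.rho_le (Eventually.of_forall (fun x => (h2 x).le))
        omega
      have h2 : Tendsto (fun y : ℕ => (Nat.primeCounting y : ℤ)) atTop atTop :=
        tendsto_natCast_atTop_atTop.comp Nat.tendsto_primeCounting
      refine h2.congr (fun y => ?_)
      rw [h1 y]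
      simp

end Pool.Agent.Results.MP_5046ca_nt.InformationThreshold
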