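import Pool.Agent.Q197.SP.R504

/-!
# The answer for random primes is no

`ρ(y)` is the largest number of primes in infinitely many intervals `(x, x + y]`. Let `ρ*(y)` be the largest number of
elements of an admissible subset of `[0, y)`. If `ρ` is formed with a random set `A` of natural numbers, for which the
events `n ∈ A` are independent, and of probability at least `n ^ (-ε)` for all large `n` without prime factors
`≤ z(n) = n ^ o(1)`, then almost surely `ρ(y) ≥ ρ*(y)` for all `y ≥ 3` (with many windows), and `π(y) - ρ(y)` tends to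
`-∞`. If `A` has only finitely many multiples of every prime, then `ρ(y) = ρ*(y)`.
-/

set_option autoImplicit false

namespace Pool.Agent.Results.MP_5046ca_nt.RandomPrimes

open Finset Filter MeasureTheory ProbabilityTheory Pool.Agent.Q197.SP.R504

theorem result :
    ∀ (Ω : Type) [MeasurableSpace Ω] (μ : Measure Ω) [IsProbabilityMeasure μ] (A : Ω → Set ℕ) (z : ℕ → ℝ),
      (∀ n : ℕ, MeasurableSet {ω | n ∈ A ω}) →
      iIndepSet (fun n : ℕ => {ω | n ∈ A ω}) μ →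
      (∀ ε : ℝ, 0 < ε → ∀ᶠ n : ℕ in atTop, z n ≤ (n : ℝ) ^ ε) →
      (∀ ε : ℝ, 0 < ε → ∀ᶠ n : ℕ in atTop, (∀ q : ℕ, q.Prime → q ∣ n → z n < q) →
        (n : ℝ) ^ (-ε) ≤ μ.real {ω | n ∈ A ω}) →
      (∀ᵐ ω ∂μ,
        (∀ y : ℕ, 3 ≤ y → rhoStar y ≤ rho (A ω) y ∧ ∀ ε : ℝ, 0 < ε → ∀ᶠ X : ℕ in atTop, (X : ℝ) ^ (1 - ε) ≤
          ({x : ℕ | x ≤ X ∧ rhoStar y ≤ (A ω ∩ Set.Ioc x (x + y)).ncard} : Set ℕ).ncard) ∧
        (∀ α : ℝ, α < 1 / 2 → ∀ᶠ y : ℕ in atTop, (Nat.primeCounting y : ℝ) - rho (A ω) y ≤ -(α * gain y)) ∧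
        Tendsto (fun y : ℕ => (Nat.primeCounting y : ℤ) - rho (A ω) y) atTop atBot) ∧
      ((∀ q : ℕ, q.Prime → ∀ᵐ ω ∂μ, {n | n ∈ A ω ∧ q ∣ n}.Finite) →
        ∀ᵐ ω ∂μ, ∀ y : ℕ, 3 ≤ y → rho (A ω) y = rhoStar y) := by
  exact all_parts.2.2.2

end Pool.Agent.Results.MP_5046ca_nt.RandomPrimes
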