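import Pool.Agent.Q197.SP.R504

/-!
# Windows with a prime and as many almost primes as possible

Let `ρ*(y)` be the largest number of elements of an admissible subset of `[0, y)`. For every `y ≥ 3` and `ε > 0` there is
`δ > 0` such that for all large `X` at least `X ^ (1 - ε)` of the windows `(x, x + y]`, `x ≤ X`, contain at least `ρ*(y)`
numbers `n` all of whose prime factors are larger than `n ^ δ`, and a prime.
-/

set_option autoImplicit false

namespace Pool.Agent.Results.MP_5046ca_nt.WindowsWithAPrime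

open Finset Filter MeasureTheory ProbabilityTheory Pool.Agent.Q197.SP.R504

theorem result :
    ∀ (y : ℕ) (ε : ℝ), 3 ≤ y → 0 < ε → ∃ δ₀ : ℝ, 0 < δ₀ ∧ ∀ δ : ℝ, 0 < δ → δ ≤ δ₀ →
      ∃ X₀ : ℕ, ∀ X : ℕ, X₀ ≤ X → (X : ℝ) ^ (1 - ε) ≤
        ({x : ℕ | x ≤ X ∧ rhoStar y ≤ (Rough δ ∩ Set.Ioc x (x + y)).ncard ∧
          ∃ p, p.Prime ∧ x < p ∧ p ≤ x + y} : Set ℕ).ncard := by
  exact all_parts.2.2.1

end Pool.Agent.Results.MP_5046ca_nt.WindowsWithAPrime
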